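import Pool.Agent.PFD.StmtsD2c
import Pool.Agent.Helper77_PFC.CAS

/-!
Squad PFD, block D2c, row CHF: change of the relative Frobenius family in a `WFr`.
-/

open scoped BigOperators

noncomputable section

namespace Pool.Agent.PFD.D2b.H17

open MulOpposite
open Pool.Agent.PFC.B1 (BiM FS Sep)
open Pool.Agent.PFD.D2

/-- the bilinear map `(x, y) ↦ L1 y • L2 x` -/
def bl {R Γ A : Type} [CommRing R] [AddCommGroup Γ] [Module R Γ] [AddCommGroup A] [Module R A]
    (L1 : Γ →ₗ[R] R) (L2 : Γ →ₗ[R] A) : Γ →ₗ[R] Γ →ₗ[R] A :=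
  LinearMap.mk₂ R (fun x y => L1 y • L2 x)
    (fun x x' y => by rw [map_add, smul_add])
    (fun c x y => by rw [map_smul, smul_comm])
    (fun x y y' => by rw [map_add, add_smul])
    (fun c x y => by rw [map_smul, smul_assoc])

theorem chf (hCzw : CzwStmt) : ChfStmt := by
  intro R Γ W I I' A Ω _ _ _ _ _ _ _ _ _ _ _ D D' z z' hom hz hz' hzz hlam j pr hT
  obtain ⟨T⟩ := hT
  have hzz' : z' * z = 1 := by rw [← hz, hzz]
  let τ : Ω → (A →ₗ[R] R) := fun ω =>
    T.τ ω ∘ₗ (LinearMap.mulLeft R (j z)) ∘ₗ (LinearMap.mulRight R (j z))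
  have hτ : ∀ ω a, τ ω a = T.τ ω (j z * (a * j z)) := fun ω a => rfl
  have jz : ∀ γ, j z * j γ = j γ * j z := fun γ => by rw [← map_mul, ← map_mul, hz]
  have m1 : ∀ w ω, T.m (w • ω) = j (D.om w) * T.m ω * j (D.om w⁻¹) := by
    intro w ω
    rw [hom, hom, T.m1]
  have t1 : ∀ w ω a, τ (w • ω) (j (D.om w) * a * j (D.om w⁻¹)) = τ ω a := by
    intro w ω a
    rw [hτ, hτ, hom, hom, ← T.t1 w ω (j z * (a * j z))]
    congr 1
    calc j z * (j (D'.om w) * a * j (D'.om w⁻¹) * j z)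
        = (j z * j (D'.om w)) * a * (j (D'.om w⁻¹) * j z) := by simp only [mul_assoc]
      _ = (j (D'.om w) * j z) * a * (j z * j (D'.om w⁻¹)) := by rw [jz, jz]
      _ = j (D'.om w) * (j z * (a * j z)) * j (D'.om w⁻¹) := by simp only [mul_assoc]
  refine ⟨{ m := T.m, τ := τ, m1 := m1, t1 := t1, id := ?_ }⟩
  intro a
  -- the first bilinear map
  let β1 : Γ →ₗ[R] Γ →ₗ[R] A := ∑ k, ∑ w, ∑ ω,
    bl (τ ω ∘ₗ LinearMap.mulRight R (j (D.cf k * D.om w)) ∘ₗ LinearMap.mulRight R a ∘ₗ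
        j.toLinearMap)
      (LinearMap.mulRight R (j (D.om w⁻¹ * D.cf' k)) ∘ₗ LinearMap.mulRight R (T.m ω) ∘ₗ
        j.toLinearMap)
  have hβ1 : ∀ x y, β1 x y = ∑ k, ∑ w, ∑ ω, τ ω (j y * a * j (D.cf k * D.om w)) •
      (j x * T.m ω * j (D.om w⁻¹ * D.cf' k)) := by
    intro x y
    simp only [β1, LinearMap.sum_apply]
    rfl
  have bal1 : ∀ x y u, β1 (x * D.om u) y = β1 x (D.om u * y) := by
    intro x y u
    rw [hβ1, hβ1]
    refine Finset.sum_congr rfl fun k _ => ?_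
    symm
    have hG : ∀ w, (∑ ω, τ ω (j (D.om u * y) * a * j (D.cf k * D.om w)) •
        (j x * T.m ω * j (D.om w⁻¹ * D.cf' k))) =
        ∑ ω, τ ω (j y * a * j (D.cf k * D.om (w * u))) •
          (j (x * D.om u) * T.m ω * j (D.om (w * u)⁻¹ * D.cf' k)) := by
      intro w
      rw [← Equiv.sum_comp (MulAction.toPerm u)]
      refine Finset.sum_congr rfl fun ω _ => ?_
      show τ (u • ω) (j (D.om u * y) * a * j (D.cf k * D.om w)) •
        (j x * T.m (u • ω) * j (D.om w⁻¹ * D.cf' k)) = _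
      have e1 : j (D.om u * y) * a * j (D.cf k * D.om w) =
          j (D.om u) * (j y * a * j (D.cf k * D.om (w * u))) * j (D.om u⁻¹) := by
        have : D.om w = D.om w * D.om u * D.om u⁻¹ := by
          rw [mul_assoc, ← map_mul, mul_inv_cancel, map_one, mul_one]
        conv_lhs => rw [this]
        simp only [map_mul, mul_assoc]
      have e2 : j x * T.m (u • ω) * j (D.om w⁻¹ * D.cf' k) =
          j (x * D.om u) * T.m ω * j (D.om (w * u)⁻¹ * D.cf' k) := by
        rw [m1, mul_inv_rev]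
        simp only [map_mul, mul_assoc]
      rw [e1, t1, e2]
    rw [Finset.sum_congr rfl fun w _ => hG w]
    exact Equiv.sum_comp (Equiv.mulRight u) (fun w => ∑ ω,
      τ ω (j y * a * j (D.cf k * D.om w)) •
        (j (x * D.om u) * T.m ω * j (D.om w⁻¹ * D.cf' k)))
  -- the second bilinear map
  let β2 : Γ →ₗ[R] Γ →ₗ[R] A := ∑ w, ∑ ω, ∑ l,
    (bl (τ ω ∘ₗ LinearMap.mulLeft R (j (z' * D'.cf' l) * a) ∘ₗ j.toLinearMap ∘ₗ
        LinearMap.mulRight R (D.om w))
      (LinearMap.mulLeft R (j (D'.cf l) * T.m ω) ∘ₗ j.toLinearMap ∘ₗ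
        LinearMap.mulLeft R (D.om w⁻¹))).flip
  have hβ2 : ∀ x y, β2 x y = ∑ w, ∑ ω, ∑ l,
      τ ω (j (z' * D'.cf' l) * a * j (x * D.om w)) •
        (j (D'.cf l) * T.m ω * j (D.om w⁻¹ * y)) := by
    intro x y
    simp only [β2, LinearMap.sum_apply]
    rfl
  have bal2 : ∀ x y u, β2 (x * D.om u) y = β2 x (D.om u * y) := by
    intro x y u
    rw [hβ2, hβ2]
    symm
    rw [← Equiv.sum_comp (Equiv.mulLeft u)]
    refine Finset.sum_congr rfl fun w _ => Finset.sum_congr rfl fun ω _ =>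
      Finset.sum_congr rfl fun l _ => ?_
    have e1 : x * D.om (Equiv.mulLeft u w) = x * D.om u * D.om w := by
      rw [mul_assoc, ← map_mul]
      rfl
    have e2 : D.om (Equiv.mulLeft u w)⁻¹ * (D.om u * y) = D.om w⁻¹ * y := by
      rw [← mul_assoc, ← map_mul]
      congr 2
      show (u * w)⁻¹ * u = w⁻¹
      rw [mul_inv_rev, mul_assoc, inv_mul_cancel, mul_one]
    rw [e1, e2]
  -- the third bilinear map
  let β3 : Γ →ₗ[R] Γ →ₗ[R] A := ∑ ω, ∑ l,
    (bl (T.τ ω ∘ₗ LinearMap.mulLeft R (j (D'.cf' l) * a) ∘ₗ j.toLinearMap)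
      (LinearMap.mulLeft R (j (D'.cf l) * T.m ω) ∘ₗ j.toLinearMap ∘ₗ
        LinearMap.mulLeft R z')).flip
  have hβ3 : ∀ x y, β3 x y = ∑ ω, ∑ l, T.τ ω (j (D'.cf' l) * a * j x) •
      (j (D'.cf l) * T.m ω * j (z' * y)) := by
    intro x y
    simp only [β3, LinearMap.sum_apply]
    rfl
  calc ∑ i, ∑ k, ∑ w, ∑ ω, τ ω (j (D.cf' i) * a * j (D.cf k * D.om w)) •
        (j (D.cf i) * T.m ω * j (D.om w⁻¹ * D.cf' k))
      = ∑ i, β1 (D.cf i) (D.cf' i) := by simp only [hβ1]
    _ = ∑ l, β1 (D'.cf l) (z' * D'.cf' l) :=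
        hCzw R Γ W I I' A D D' z z' hom hz hz' hzz hlam β1 bal1
    _ = ∑ k, β2 (D.cf k) (D.cf' k) := by
        simp only [hβ1, hβ2]
        rw [Finset.sum_comm]
        refine Finset.sum_congr rfl fun k _ => ?_
        rw [Finset.sum_comm]
        refine Finset.sum_congr rfl fun w _ => ?_
        rw [Finset.sum_comm]
    _ = ∑ k, β2 (D'.cf k) (z' * D'.cf' k) :=
        hCzw R Γ W I I' A D D' z z' hom hz hz' hzz hlam β2 bal2
    _ = ∑ s, β3 (z * D'.fs.b s) (D'.fs.b' s) := by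
        rw [Fintype.sum_prod_type]
        refine Finset.sum_congr rfl fun k _ => ?_
        rw [hβ2]
        refine Finset.sum_congr rfl fun w _ => ?_
        rw [hβ3]
        refine Finset.sum_congr rfl fun ω _ => Finset.sum_congr rfl fun l _ => ?_
        show τ ω (j (z' * D'.cf' l) * a * j (D'.cf k * D.om w)) •
          (j (D'.cf l) * T.m ω * j (D.om w⁻¹ * (z' * D'.cf' k))) =
          T.τ ω (j (D'.cf' l) * a * j (z * (D'.cf k * D'.om w))) •
          (j (D'.cf l) * T.m ω * j (z' * (D'.om w⁻¹ * D'.cf' k)))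
        have e1 : j z * (j (z' * D'.cf' l) * a * j (D'.cf k * D.om w) * j z) =
            j (D'.cf' l) * a * j (z * (D'.cf k * D'.om w)) := by
          have h1 : j (D'.cf k * D.om w) * j z = j (z * (D'.cf k * D'.om w)) := by
            rw [← map_mul, ← hz, hom]
          have h2 : j z * j (z' * D'.cf' l) = j (D'.cf' l) := by
            rw [← map_mul, ← mul_assoc, hzz, one_mul]
          rw [mul_assoc (j (z' * D'.cf' l) * a), h1, ← mul_assoc, ← mul_assoc, h2]
        have e2 : D.om w⁻¹ * (z' * D'.cf' k) = z' * (D'.om w⁻¹ * D'.cf' k) := by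
          rw [← mul_assoc, ← hz', mul_assoc, hom]
        rw [hτ, e1, e2]
    _ = ∑ s, β3 (D'.fs.b s) (D'.fs.b' s * z) :=
        Pool.Agent.PFC.H77.cas R Γ (I' × W) A D'.fs β3 z
    _ = a - j (pr a) := by
        rw [← T.id a, Fintype.sum_prod_type]
        have hs : ∀ k w, β3 (D'.fs.b (k, w)) (D'.fs.b' (k, w) * z) =
            ∑ ω, ∑ l, T.τ ω (j (D'.cf' l) * a * j (D'.cf k * D'.om w)) •
              (j (D'.cf l) * T.m ω * j (D'.om w⁻¹ * D'.cf' k)) := by
          intro k w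
          rw [hβ3]
          have e : z' * (D'.fs.b' (k, w) * z) = D'.om w⁻¹ * D'.cf' k := by
            rw [← hz, ← mul_assoc, hzz', one_mul]
            rfl
          rw [e]
          rfl
        simp only [hs]
        symm
        rw [Finset.sum_comm]
        refine Finset.sum_congr rfl fun k _ => ?_
        rw [Finset.sum_comm]
        refine Finset.sum_congr rfl fun w _ => ?_
        rw [Finset.sum_comm]

end Pool.Agent.PFD.D2b.H17
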