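import Pool.Agent.PFD.StmtsD2

/-!
Squad PFD, block D2, row LBG: a balanced bilinear map `P × P → A` lifts to a balanced bilinear
map to `Γ × P`.
-/

namespace Pool.Agent.PFD.D2.H17

open MulOpposite
open Pool.Agent.PFC.B1 (BiM)

/-- lifting of a bilinear map on a free module along a linear map -/
theorem bil_lift {R X P A : Type} [CommRing R] [AddCommGroup X] [Module R X]
    [Module.Free R X] [AddCommGroup P] [Module R P] [AddCommGroup A] [Module R A]
    (q : P →ₗ[R] A) (g : X →ₗ[R] X →ₗ[R] A) (h : ∀ x y, ∃ p, q p = g x y) :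
    ∃ b : X →ₗ[R] X →ₗ[R] P, ∀ x y, q (b x y) = g x y := by
  classical
  let bs := Module.Free.chooseBasis R X
  choose f hf using h
  let b : X →ₗ[R] X →ₗ[R] P := bs.constr R (fun i => bs.constr R (fun k => f (bs i) (bs k)))
  have hb : b.compr₂ q = g := by
    refine bs.ext fun i => bs.ext fun k => ?_
    rw [LinearMap.compr₂_apply]
    show q ((bs.constr R (fun i => bs.constr R (fun k => f (bs i) (bs k)))) (bs i) (bs k)) = _
    rw [Module.Basis.constr_basis, Module.Basis.constr_basis]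
    exact hf _ _
  refine ⟨b, fun x y => ?_⟩
  rw [← hb, LinearMap.compr₂_apply]

theorem lbg : LbgStmt := by
  intro R F Γ A X X0 P _ _ _ _ c _ _ _ _ _ _ _ _ _ _ _ _ BX D hL _ _ _ _ L β0 h1 h2 h3
  -- the map on `X × X`
  let g : X →ₗ[R] X →ₗ[R] A := β0.compl₁₂ L.p L.p
  have hg : ∀ x y, g x y = β0 (L.p x) (L.p y) := fun x y => rfl
  have g1 : ∀ γ x y, g (BX.lm γ x) y = D.j γ * g x y := by
    intro γ x y
    rw [hg, hg, L.p1.1, h1]
  have g2 : ∀ γ x y, g (BX.rm (op γ) x) y = g x (BX.lm γ y) := by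
    intro γ x y
    rw [hg, hg, L.p1.2, h2, L.p1.1]
  have g3 : ∀ γ x y, g x (BX.rm (op γ) y) = g x y * D.j γ := by
    intro γ x y
    rw [hg, hg, L.p1.2, h3]
  have jz : ∀ n : Γ, D.j (c.π • n) = 0 := by
    intro n
    rw [map_smul, Algebra.smul_def, D.hA, zero_mul]
  have qz : ∀ n : P, L.q (c.π • n) = 0 := by
    intro n
    rw [map_smul, Algebra.smul_def, D.hA, zero_mul]
  -- the component in `Γ`
  obtain ⟨b1, hb1⟩ := bil_lift D.j.toLinearMap (g.compr₂ D.e) (by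
    intro x y
    obtain ⟨γ, hγ⟩ := D.e1 (g x y)
    exact ⟨γ, by rw [LinearMap.compr₂_apply]; exact hγ.symm⟩)
  have hb1' : ∀ x y, D.j (b1 x y) = D.e (g x y) := fun x y => hb1 x y
  have P1 : Bal2P c.π BX (regB R Γ) b1 := by
    refine ⟨?_, ?_, ?_⟩
    · intro γ x y
      apply D.hj
      show D.j (b1 (BX.lm γ x) y - γ * b1 x y) = 0
      rw [map_sub, map_mul, hb1', hb1', g1, D.e3, sub_self]
    · intro γ x y
      apply D.hj
      rw [map_sub, hb1', hb1', g2, sub_self]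
    · intro γ x y
      apply D.hj
      show D.j (b1 x (BX.rm γ y) - b1 x y * γ.unop) = 0
      have h := g3 γ.unop x y
      rw [op_unop] at h
      rw [map_sub, map_mul, hb1', hb1', h, D.e4, sub_self]
  obtain ⟨B1, hB1, hB1e⟩ := hL.l3 b1 P1
  have jB1 : ∀ x y, D.j (B1 x y) = D.e (g x y) := by
    intro x y
    obtain ⟨n, hn⟩ := hB1e x y
    rw [sub_eq_iff_eq_add] at hn
    rw [hn, map_add, jz, zero_add, hb1']
  -- the component in `P`
  obtain ⟨b2, hb2⟩ := bil_lift L.q (g - g.compr₂ D.e) (by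
    intro x y
    apply L.q4
    show D.e (g x y - D.e (g x y)) = 0
    obtain ⟨γ, hγ⟩ := D.e1 (g x y)
    rw [map_sub, hγ, D.e2, ← hγ, sub_self])
  have hb2' : ∀ x y, L.q (b2 x y) = g x y - D.e (g x y) := fun x y => hb2 x y
  have P2 : Bal2P c.π BX BX (b2.compr₂ L.i) := by
    refine ⟨?_, ?_, ?_⟩
    · intro γ x y
      show ∃ n, L.i (b2 (BX.lm γ x) y) - BX.lm γ (L.i (b2 x y)) = c.π • n
      obtain ⟨z, hz⟩ := (L.q5 (b2 (BX.lm γ x) y - L.lm γ (b2 x y))).1 (by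
        rw [map_sub, L.q1, hb2', hb2', g1, D.e3, mul_sub, sub_self])
      refine ⟨L.i z, ?_⟩
      rw [← map_smul, ← hz, map_sub, L.i1.1]
    · intro γ x y
      show ∃ n, L.i (b2 (BX.rm (op γ) x) y) - L.i (b2 x (BX.lm γ y)) = c.π • n
      obtain ⟨z, hz⟩ := (L.q5 (b2 (BX.rm (op γ) x) y - b2 x (BX.lm γ y))).1 (by
        rw [map_sub, hb2', hb2', g2, sub_self])
      refine ⟨L.i z, ?_⟩
      rw [← map_smul, ← hz, map_sub]
    · intro γ x y
      show ∃ n, L.i (b2 x (BX.rm γ y)) - BX.rm γ (L.i (b2 x y)) = c.π • n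
      have h := g3 γ.unop x y
      rw [op_unop] at h
      have hq := L.q2 γ.unop (b2 x y)
      rw [op_unop] at hq
      obtain ⟨z, hz⟩ := (L.q5 (b2 x (BX.rm γ y) - L.rm γ (b2 x y))).1 (by
        rw [map_sub, hq, hb2', hb2', h, D.e4, sub_mul, sub_self])
      refine ⟨L.i z, ?_⟩
      rw [← map_smul, ← hz, map_sub, L.i1.2]
  obtain ⟨B2, hB2, hB2e⟩ := hL.l2 (b2.compr₂ L.i) P2
  have hpi : ∀ z, L.p (L.i z) = z := fun z => LinearMap.congr_fun L.pi z
  have qB2 : ∀ x y, L.q (L.p (B2 x y)) = g x y - D.e (g x y) := by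
    intro x y
    obtain ⟨n, hn⟩ := hB2e x y
    rw [sub_eq_iff_eq_add] at hn
    rw [hn, map_add, map_smul, map_add, qz, zero_add, LinearMap.compr₂_apply, hpi, hb2']
  -- the lift
  let β : P →ₗ[R] P →ₗ[R] Γ × P :=
    LinearMap.mk₂ R (fun p p' => (B1 (L.i p) (L.i p'), L.p (B2 (L.i p) (L.i p'))))
      (fun p p' z => by simp only [map_add, LinearMap.add_apply, Prod.mk_add_mk])
      (fun r p z => by simp only [map_smul, LinearMap.smul_apply, Prod.smul_mk])
      (fun p z z' => by simp only [map_add, Prod.mk_add_mk])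
      (fun r p z => by simp only [map_smul, Prod.smul_mk])
  have hβ : ∀ p p', β p p' = (B1 (L.i p) (L.i p'), L.p (B2 (L.i p) (L.i p'))) :=
    fun p p' => rfl
  refine ⟨β, ⟨?_, ?_, ?_⟩, ?_⟩
  · intro γ p p'
    rw [hβ, hβ, L.i1.1, hB1.1, hB2.1, L.p1.1]
    rfl
  · intro γ p p'
    rw [hβ, hβ, L.i1.2, hB1.2.1, hB2.2.1, L.i1.1]
  · intro γ p p'
    rw [hβ, hβ, L.i1.2, hB1.2.2, hB2.2.2, L.p1.2]
    rfl
  · intro p p'
    rw [hβ]
    show D.j (B1 (L.i p) (L.i p')) + L.q (L.p (B2 (L.i p) (L.i p'))) = β0 p p'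
    rw [jB1, qB2, add_sub_cancel, hg, hpi, hpi]

end Pool.Agent.PFD.D2.H17
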