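import Pool.Agent.PFD.StmtsD3

/-!
Squad PFD, block D3, row QUA: the quotient `R1` exists.
-/

open scoped BigOperators

noncomputable section

namespace Pool.Agent.PFD.D3.H17

open MvPolynomial

/-- the reduction of matrices is a special fibre map -/
def fibMat {R F : Type} [CommRing R] [Field F] (c : D2.Cdv R F) (J : Type) [Fintype J]
    [DecidableEq J] : D2.FibG (Matrix J J R) (Matrix J J F) c where
  q := c.κ.mapMatrix
  sc := fun r => by
    rw [RingHom.mapMatrix_apply]
    ext i j
    rw [Matrix.map_apply, Matrix.algebraMap_matrix_apply, Matrix.algebraMap_matrix_apply]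
    by_cases h : i = j
    · rw [if_pos h, if_pos h]
      rfl
    · rw [if_neg h, if_neg h, map_zero]
  surj := fun y => by
    choose f hf using c.surj
    refine ⟨Matrix.of fun i j => f (y i j), ?_⟩
    ext i j
    exact hf _
  ker := fun x hx => by
    have h : ∀ i j, ∃ s, x i j = c.π * s := fun i j => (c.ker _).1 (by
      have := congrFun (congrFun hx i) j
      exact this)
    choose f hf using h
    refine ⟨Matrix.of f, ?_⟩
    ext i j
    rw [Matrix.smul_apply, smul_eq_mul]
    exact hf i j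

theorem qua (hRep : RepStmt) (hRel : RelStmt) (hGbs : GbsStmt) : QuaStmt := by
  intro ℓ _ R F E B _ _ _ _ _ c J _ _ _ a D0 hE
  -- the lifts
  have h1 : ∀ b, ∃ ρ : E →* Matrix (J b) (J b) R, ∀ e, (fibMat c (J b)).q (ρ e) = D0 b e :=
    fun b => hRep R F (Matrix (J b) (J b) R) (Matrix (J b) (J b) F) E c (fibMat c (J b)) (D0 b) hE
  choose D hD using h1
  have hD' : ∀ b e k j, c.κ (D b e k j) = D0 b e k j := by
    intro b e k j
    rw [← hD b e]
    rfl
  have h2 : ∀ b, ∃ ρ : E →* Matrix (J b) (J b) R, ∀ e, (fibMat c (J b)).q (ρ e) =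
      ((iterateFrobenius F ℓ (a b)).mapMatrix : Matrix (J b) (J b) F →+* _).toMonoidHom.comp
        (D0 b) e :=
    fun b => hRep R F (Matrix (J b) (J b) R) (Matrix (J b) (J b) F) E c (fibMat c (J b)) _ hE
  choose T hT using h2
  have hT' : ∀ b e k j, c.κ (T b e k j) = c.κ (D b e k j) ^ ℓ ^ a b := by
    intro b e k j
    rw [hD', ← iterateFrobenius_def]
    exact congrFun (congrFun (hT b e) k) j
  obtain ⟨f, fh, fm, fe⟩ := hRel ℓ R F E B c J a D T hE hT'
  obtain ⟨bb, hb1, hb2⟩ := hGbs R F (Σ b, J b) c (fun i => ℓ ^ a i.1) f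
    (fun i => pow_pos (Fact.out : ℓ.Prime).pos _) fh fm
  refine ⟨D, MvPolynomial (Σ b, J b) R ⧸ Ideal.span (Set.range f), inferInstance, inferInstance,
    hD', ⟨?_⟩⟩
  exact
    { pm := Ideal.Quotient.mkₐ R (Ideal.span (Set.range f))
      sur := Ideal.Quotient.mkₐ_surjective _ _
      f := f
      fh := fh
      fm := fm
      fe := by
        rintro e ⟨b, j⟩
        rw [fe]
        refine Ideal.sum_mem _ fun k _ => ?_
        exact Ideal.mul_mem_left _ _ (Ideal.subset_span ⟨_, rfl⟩)
      ker := by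
        intro p
        rw [Ideal.Quotient.mkₐ_eq_mk, Ideal.Quotient.eq_zero_iff_mem]
      b := bb
      b_eq := hb1
      b_deg := hb2 }

end Pool.Agent.PFD.D3.H17
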